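import Pool.Agent.Q222.Mat.Toric

/-!
# A matching polytope whose toric ideal needs a generator of degree five
-/

namespace Pool.Agent.Results.MP_2a9801_co.DegreeFive

open Pool.Agent.Q222.Mat MvPolynomial

/-- The sixteen edges. -/
def ev : Fin 16 → Sym2 (Fin 10) :=
  ![s(0,1), s(0,3), s(0,8), s(1,5), s(1,6), s(2,3), s(2,6), s(2,7), s(3,9), s(4,6), s(4,8),
    s(4,9), s(5,7), s(5,9), s(7,8), s(7,9)]

/-- The graph on ten vertices with these edges. -/
def G : SimpleGraph (Fin 10) := SimpleGraph.fromEdgeSet (Set.range ev)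

theorem mem_edges (e : Sym2 (Fin 10)) : e ∈ G.edgeSet ↔ ∃ i, ev i = e := by
  rw [G, SimpleGraph.edgeSet_fromEdgeSet]
  constructor
  · rintro ⟨h, _⟩; exact h
  · rintro ⟨i, rfl⟩
    refine ⟨⟨i, rfl⟩, ?_⟩
    revert i
    decide

/-- The `i`-th edge. -/
def edge (i : Fin 16) : G.edgeSet := ⟨ev i, (mem_edges _).2 ⟨i, rfl⟩⟩

theorem ev_inj : Function.Injective ev := by
  intro i j
  revert i j
  decide

theorem edge_bij : Function.Bijective edge := by
  constructor
  · intro i j h
    exact ev_inj (Subtype.ext_iff.1 h)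
  · rintro ⟨e, he⟩
    obtain ⟨i, hi⟩ := (mem_edges e).1 he
    exact ⟨i, Subtype.ext hi⟩

/-- The edges are indexed by `Fin 16`. -/
noncomputable def eqv : Fin 16 ≃ G.edgeSet := Equiv.ofBijective edge edge_bij

/-- The eight perfect matchings. -/
def pm : Fin 8 → Fin 16 → ℕ :=
  ![![1, 0, 0, 0, 0, 1, 0, 0, 0, 1, 0, 0, 0, 1, 1, 0],
    ![1, 0, 0, 0, 0, 0, 1, 0, 1, 0, 1, 0, 1, 0, 0, 0],
    ![0, 1, 0, 1, 0, 0, 1, 0, 0, 0, 1, 0, 0, 0, 0, 1],
    ![0, 1, 0, 1, 0, 0, 1, 0, 0, 0, 0, 1, 0, 0, 1, 0],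
    ![0, 1, 0, 0, 1, 0, 0, 1, 0, 0, 1, 0, 0, 1, 0, 0],
    ![0, 0, 1, 1, 0, 1, 0, 0, 0, 1, 0, 0, 0, 0, 0, 1],
    ![0, 0, 1, 1, 0, 0, 0, 1, 1, 1, 0, 0, 0, 0, 0, 0],
    ![0, 0, 1, 0, 1, 1, 0, 0, 0, 0, 0, 1, 1, 0, 0, 0]]

/-- The edges at a vertex. -/
def inc (v : Fin 10) : Finset (Fin 16) := Finset.univ.filter fun i => v ∈ ev i

theorem degree_le {x : G.edgeSet → ℝ} (hx : x ∈ matchingPolytope G) (v : Fin 10) :
    ∑ i ∈ inc v, x (edge i) ≤ 1 := by
  classical
  have hsub : matchingPolytope G ⊆ {x | ∑ i ∈ inc v, x (edge i) ≤ 1} := by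
    apply convexHull_min
    · rintro _ ⟨M, hM, rfl⟩
      rw [Set.mem_ofPred_eq]
      by_cases hex : ∃ i ∈ inc v, edge i ∈ M
      · obtain ⟨i, hi, hiM⟩ := hex
        rw [Finset.sum_eq_single i]
        · simp only [rho, Set.indicator]
          split_ifs <;> simp
        · intro j hj hji
          have : edge j ∉ M := by
            intro hjM
            refine hM _ hiM _ hjM ?_ v ⟨?_, ?_⟩
            · intro h; exact hji (edge_bij.1 h).symm
            · simpa [inc, edge] using hi
            · simpa [inc, edge] using hj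
          simp [rho, this]
        · intro h; exact absurd hi h
      · push Not at hex
        rw [Finset.sum_eq_zero]
        · exact zero_le_one
        · intro i hi
          simp [rho, hex i hi]
    · intro x hx y hy a b ha hb hab
      simp only [Set.mem_ofPred_eq] at hx hy ⊢
      have : ∑ i ∈ inc v, (a • x + b • y) (edge i)
          = a * ∑ i ∈ inc v, x (edge i) + b * ∑ i ∈ inc v, y (edge i) := by
        rw [Finset.mul_sum, Finset.mul_sum, ← Finset.sum_add_distrib]
        rfl
      rw [this]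
      nlinarith
  exact hsub hx

theorem degree_le_nat (a : latticePts (matchingPolytope G)) (v : Fin 10) :
    ∑ i ∈ inc v, (a : G.edgeSet →₀ ℕ) (edge i) ≤ 1 := by
  have := degree_le a.2 v
  exact_mod_cast this

/-- The exponent vector of the `j`-th perfect matching. -/
noncomputable def mvec (j : Fin 8) : G.edgeSet →₀ ℕ :=
  Finsupp.equivMapDomain eqv (Finsupp.equivFunOnFinite.symm (pm j))

theorem mvec_edge (j : Fin 8) (i : Fin 16) : mvec j (edge i) = pm j i := by
  have : edge i = eqv i := rfl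
  rw [mvec, this, Finsupp.equivMapDomain_apply, Equiv.symm_apply_apply]
  rfl

theorem pm_matching : ∀ (j : Fin 8) (i k : Fin 16), pm j i = 1 → pm j k = 1 → i ≠ k →
    ∀ v : Fin 10, ¬ (v ∈ ev i ∧ v ∈ ev k) := by
  decide +kernel

theorem pm_01 : ∀ (j : Fin 8) (i : Fin 16), pm j i = 0 ∨ pm j i = 1 := by
  decide +kernel

theorem mvec_mem (j : Fin 8) : mvec j ∈ latticePts (matchingPolytope G) := by
  classical
  apply subset_convexHull
  refine ⟨{e | mvec j e = 1}, ?_, ?_⟩
  · intro e he f hf hef v hv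
    obtain ⟨i, rfl⟩ := edge_bij.2 e
    obtain ⟨k, rfl⟩ := edge_bij.2 f
    simp only [Set.mem_ofPred_eq, mvec_edge] at he hf
    exact pm_matching j i k he hf (fun h => hef (by rw [h])) v hv
  · funext e
    obtain ⟨i, rfl⟩ := edge_bij.2 e
    simp only [rho, Set.indicator, Set.mem_ofPred_eq, mvec_edge, Pi.one_apply]
    rcases pm_01 j i with h | h <;> simp [h]

/-- The `j`-th perfect matching as a lattice point. -/
noncomputable def m (j : Fin 8) : latticePts (matchingPolytope G) := ⟨mvec j, mvec_mem j⟩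

theorem pm_inj : ∀ j k : Fin 8, (∀ i, pm j i = pm k i) → j = k := by decide +kernel

theorem m_inj : Function.Injective m := by
  intro j k h
  apply pm_inj
  intro i
  rw [← mvec_edge, ← mvec_edge]
  have := Subtype.ext_iff.1 h
  change mvec j = mvec k at this
  rw [this]

set_option maxHeartbeats 4000000 in
theorem classify (x : Fin 16 → ℕ) (hx : ∀ v, ∑ i ∈ inc v, x i = 1) :
    ∃ j : Fin 8, ∀ i, x i = pm j i := by
  have e0 : inc 0 = {0, 1, 2} := by decide +kernel
  have e1 : inc 1 = {0, 3, 4} := by decide +kernel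
  have e2 : inc 2 = {5, 6, 7} := by decide +kernel
  have e3 : inc 3 = {1, 5, 8} := by decide +kernel
  have e4 : inc 4 = {9, 10, 11} := by decide +kernel
  have e5 : inc 5 = {3, 12, 13} := by decide +kernel
  have e6 : inc 6 = {4, 6, 9} := by decide +kernel
  have e7 : inc 7 = {7, 12, 14, 15} := by decide +kernel
  have e8 : inc 8 = {2, 10, 14} := by decide +kernel
  have e9 : inc 9 = {8, 11, 13, 15} := by decide +kernel
  have h0 := hx 0
  have h1 := hx 1
  have h2 := hx 2
  have h3 := hx 3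
  have h4 := hx 4
  have h5 := hx 5
  have h6 := hx 6
  have h7 := hx 7
  have h8 := hx 8
  have h9 := hx 9
  rw [e0] at h0
  rw [e1] at h1
  rw [e2] at h2
  rw [e3] at h3
  rw [e4] at h4
  rw [e5] at h5
  rw [e6] at h6
  rw [e7] at h7
  rw [e8] at h8
  rw [e9] at h9
  simp at h0 h1 h2 h3 h4 h5 h6 h7 h8 h9
  clear e0 e1 e2 e3 e4 e5 e6 e7 e8 e9 hx
  rcases (by omega : x 0 = 1 ∨ x 1 = 1 ∨ x 2 = 1) with h | h | h
  · rcases (by omega : x 5 = 1 ∨ x 8 = 1) with h | h
    · exact ⟨0, by intro i; fin_cases i <;> simp [pm] <;> omega⟩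
    · exact ⟨1, by intro i; fin_cases i <;> simp [pm] <;> omega⟩
  · rcases (by omega : x 3 = 1 ∨ x 4 = 1) with h | h
    · rcases (by omega : x 6 = 1 ∨ x 7 = 1) with h | h
      · rcases (by omega : x 10 = 1 ∨ x 11 = 1) with h | h
        · exact ⟨2, by intro i; fin_cases i <;> simp [pm] <;> omega⟩
        · exact ⟨3, by intro i; fin_cases i <;> simp [pm] <;> omega⟩
      · omega
    · exact ⟨4, by intro i; fin_cases i <;> simp [pm] <;> omega⟩
  · rcases (by omega : x 3 = 1 ∨ x 4 = 1) with h | h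
    · rcases (by omega : x 5 = 1 ∨ x 8 = 1) with h | h
      · exact ⟨5, by intro i; fin_cases i <;> simp [pm] <;> omega⟩
      · exact ⟨6, by intro i; fin_cases i <;> simp [pm] <;> omega⟩
    · exact ⟨7, by intro i; fin_cases i <;> simp [pm] <;> omega⟩

/-- The exponent vector with multiplicity `c j` at the `j`-th perfect matching. -/
noncomputable def vec (c : Fin 8 → ℕ) : latticePts (matchingPolytope G) →₀ ℕ :=
  Finsupp.embDomain ⟨m, m_inj⟩ (Finsupp.equivFunOnFinite.symm c)

theorem vec_m (c : Fin 8 → ℕ) (j : Fin 8) : vec c (m j) = c j := by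
  have : m j = (⟨m, m_inj⟩ : Fin 8 ↪ _) j := rfl
  rw [vec, this, Finsupp.embDomain_apply_self]
  rfl

theorem vec_notin (c : Fin 8 → ℕ) (a : latticePts (matchingPolytope G))
    (ha : a ∉ Set.range m) : vec c a = 0 := by
  rw [vec]
  exact Finsupp.embDomain_of_notMem_range _ _ _ ha

theorem expo_vec_none (c : Fin 8 → ℕ) : expo (vec c) none = ∑ j, c j := by
  rw [expo_none, vec, Finsupp.sum_embDomain, Finsupp.sum_fintype _ _ (fun _ => rfl)]
  rfl

theorem expo_vec_some (c : Fin 8 → ℕ) (i : Fin 16) :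
    expo (vec c) (some (edge i)) = ∑ j, c j * pm j i := by
  rw [expo_some, vec, Finsupp.sum_embDomain, Finsupp.sum_fintype _ _ (fun _ => zero_mul _)]
  refine Finset.sum_congr rfl fun j _ => ?_
  rw [← mvec_edge]
  rfl

/-- The two elements of the fibre. -/
def c₁ : Fin 8 → ℕ := ![0, 1, 0, 1, 1, 2, 0, 0]

def c₂ : Fin 8 → ℕ := ![1, 0, 2, 0, 0, 0, 1, 1]

theorem sum_check : ∀ v : Fin 10, ∑ i ∈ inc v, ∑ j, c₁ j * pm j i = 5 := by decide +kernel

theorem c12_check : ∀ i : Fin 16, ∑ j, c₂ j * pm j i = ∑ j, c₁ j * pm j i := by decide +kernel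

theorem expo_eq : expo (vec c₂) = expo (vec c₁) := by
  ext e
  rcases e with _ | e
  · rw [expo_vec_none, expo_vec_none]; decide
  · obtain ⟨i, rfl⟩ := edge_bij.2 e
    rw [expo_vec_some, expo_vec_some]
    exact c12_check i

theorem supp_range (u : latticePts (matchingPolytope G) →₀ ℕ) (hu : expo u = expo (vec c₁))
    (a : latticePts (matchingPolytope G)) (ha : a ∉ Set.range m) : u a = 0 := by
  classical
  by_contra hne
  have hsupp : a ∈ u.support := Finsupp.mem_support_iff.2 hne
  apply ha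
  have h5 : ∑ b ∈ u.support, u b = 5 := by
    have : expo u none = 5 := by rw [hu, expo_vec_none]; decide
    rw [expo_none] at this
    exact this
  have hdeg : ∀ v, ∑ i ∈ inc v, (a : G.edgeSet →₀ ℕ) (edge i) = 1 := by
    intro v
    have h1 : ∑ b ∈ u.support, u b * ∑ i ∈ inc v, (b : G.edgeSet →₀ ℕ) (edge i) = 5 := by
      have : ∑ i ∈ inc v, expo u (some (edge i)) = 5 := by
        rw [hu]
        rw [← sum_check v]
        exact Finset.sum_congr rfl fun i _ => expo_vec_some _ _
      rw [← this]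
      simp only [expo_some, Finsupp.sum, Finset.mul_sum]
      rw [Finset.sum_comm]
    have h2 : ∀ b ∈ u.support, u b * ∑ i ∈ inc v, (b : G.edgeSet →₀ ℕ) (edge i) ≤ u b := by
      intro b _
      calc u b * ∑ i ∈ inc v, (b : G.edgeSet →₀ ℕ) (edge i) ≤ u b * 1 :=
            Nat.mul_le_mul_left _ (degree_le_nat b v)
        _ = u b := mul_one _
    have h3 := (Finset.sum_eq_sum_iff_of_le h2).1 (h1.trans h5.symm) a hsupp
    have h4 : u a * ∑ i ∈ inc v, (a : G.edgeSet →₀ ℕ) (edge i) = u a * 1 := by rw [h3, mul_one]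
    exact Nat.eq_of_mul_eq_mul_left (Nat.pos_of_ne_zero hne) h4
  obtain ⟨j, hj⟩ := classify _ hdeg
  refine ⟨j, ?_⟩
  apply Subtype.ext
  change mvec j = _
  ext e
  obtain ⟨i, rfl⟩ := edge_bij.2 e
  rw [mvec_edge, ← hj]

theorem expo_of_range (u : latticePts (matchingPolytope G) →₀ ℕ)
    (h : ∀ a, a ∉ Set.range m → u a = 0) : u = vec fun j => u (m j) := by
  ext a
  by_cases ha : a ∈ Set.range m
  · obtain ⟨j, rfl⟩ := ha
    rw [vec_m]
  · rw [h a ha, vec_notin _ _ ha]

theorem fibre (u : latticePts (matchingPolytope G) →₀ ℕ) (hu : expo u = expo (vec c₁)) :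
    u = vec c₁ ∨ u = vec c₂ := by
  have h := expo_of_range u (supp_range u hu)
  set c : Fin 8 → ℕ := fun j => u (m j) with hc
  have key : ∀ i, ∑ j, c j * pm j i = ∑ j, c₁ j * pm j i := by
    intro i
    rw [← expo_vec_some, ← expo_vec_some, ← h, hu]
  have k0 := key 0
  have k1 := key 1
  have k2 := key 2
  have k3 := key 3
  have k4 := key 4
  have k5 := key 5
  have k6 := key 6
  have k7 := key 7
  have k8 := key 8
  have k9 := key 9
  have k10 := key 10
  have k11 := key 11
  have k12 := key 12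
  have k13 := key 13
  have k14 := key 14
  have k15 := key 15
  simp [Fin.sum_univ_eight, pm, c₁] at k0 k1 k2 k3 k4 k5 k6 k7 k8 k9 k10 k11 k12 k13 k14 k15
  rcases (by omega : c 1 = 1 ∨ c 0 = 1) with h1 | h1
  · left
    rw [h]
    congr 1
    funext j
    fin_cases j <;> simp [c₁] <;> omega
  · right
    rw [h]
    congr 1
    funext j
    fin_cases j <;> simp [c₂] <;> omega

/-- There is a graph `G` on ten vertices such that over every field the toric ideal of the
matching polytope of `G` is not generated in degrees at most four: every generating set contains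
an element of degree at least five. -/
theorem result : ∃ G : SimpleGraph (Fin 10), ∀ (K : Type*) [Field K]
    (S : Set (MvPolynomial (latticePts (matchingPolytope G)) K)),
    Ideal.span S = toricIdeal K (matchingPolytope G) → ∃ f ∈ S, 5 ≤ f.totalDegree := by
  refine ⟨G, ?_⟩
  intro K _ S hS
  have hne : vec c₂ ≠ vec c₁ := by
    intro h
    have := vec_m c₂ 0
    rw [h, vec_m] at this
    revert this
    decide
  have hfib : ∀ u : latticePts (matchingPolytope G) →₀ ℕ, expo u = expo (vec c₁) →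
      u = vec c₁ ∨ ∀ a, u a = 0 ∨ vec c₁ a = 0 := by
    intro u hu
    rcases fibre u hu with h | h
    · exact Or.inl h
    · right
      intro a
      by_cases ha : a ∈ Set.range m
      · obtain ⟨j, rfl⟩ := ha
        rw [h, vec_m, vec_m]
        revert j
        decide
      · left
        rw [h, vec_notin _ _ ha]
  have h5 : ((vec c₁).sum fun _ n => n) = 5 := by
    rw [← expo_none, expo_vec_none]; decide
  obtain ⟨f, hf, hdeg⟩ := generator_of_fibre K (matchingPolytope G) (vec c₁) (vec c₂) hne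
    expo_eq hfib S hS
  exact ⟨f, hf, h5 ▸ hdeg⟩

end Pool.Agent.Results.MP_2a9801_co.DegreeFive
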